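import Pool.Agent.H64.BTL.Stmts

set_option autoImplicit false

universe u v w

namespace Pool.BTL

open Polynomial Cardinal

namespace EXTaux

theorem ext_gen {E : Type u} {F : Type v} {A : Type w} [CommRing E] [Countable E] [Field F]
    [Countable F] [Field A] [IsAlgClosed A] [Uncountable A] [Algebra E F] [Algebra E A]
    [FaithfulSMul E F] [FaithfulSMul E A] :
    ∃ φ : F →+* A, ∀ e : E, φ (algebraMap E F e) = algebraMap E A e := by
  classical
  haveI : Nontrivial E := (algebraMap E F).domain_nontrivial
  obtain ⟨s, hs⟩ := exists_isTranscendenceBasis E F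
  obtain ⟨t, ht⟩ := exists_isTranscendenceBasis E A
  have htu : Uncountable t := by
    rw [← not_countable_iff]
    intro hcon
    have h := IsAlgClosed.cardinal_le_max_transcendence_basis (Subtype.val : t → A) ht
    have h1 : Cardinal.lift.{max u w} #A ≤ ℵ₀ := by
      refine h.trans (max_le (max_le ?_ ?_) le_rfl)
      · rw [Cardinal.lift_le_aleph0]
        exact Cardinal.mk_le_aleph0
      · rw [Cardinal.lift_le_aleph0]
        exact Cardinal.mk_le_aleph0
    rw [Cardinal.lift_le_aleph0, Cardinal.mk_le_aleph0_iff] at h1
    exact not_countable (α := A) h1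
  haveI : Infinite t := inferInstance
  obtain ⟨f, hf⟩ := exists_injective_nat s
  let i : s → t := fun a => Infinite.natEmbedding t (f a)
  have hi : Function.Injective i := (Infinite.natEmbedding t).injective.comp hf
  have hc : AlgebraicIndependent E ((Subtype.val : t → A) ∘ i) := ht.1.comp i hi
  let g : Algebra.adjoin E (Set.range (Subtype.val : s → F)) →ₐ[E] A :=
    (MvPolynomial.aeval ((Subtype.val : t → A) ∘ i)).comp
      (hs.1.aevalEquiv.symm : _ →ₐ[E] MvPolynomial s E)
  have hg : Function.Injective g := by
    have h1 : Function.Injective (MvPolynomial.aeval (R := E) ((Subtype.val : t → A) ∘ i)) := hc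
    exact h1.comp hs.1.aevalEquiv.symm.injective
  letI : Algebra (Algebra.adjoin E (Set.range (Subtype.val : s → F))) A := g.toRingHom.toAlgebra
  haveI : Module.IsTorsionFree (Algebra.adjoin E (Set.range (Subtype.val : s → F))) A :=
    Module.isTorsionFree_iff_algebraMap_injective.2 hg
  haveI : Algebra.IsAlgebraic (Algebra.adjoin E (Set.range (Subtype.val : s → F))) F :=
    hs.isAlgebraic
  let φ : F →ₐ[Algebra.adjoin E (Set.range (Subtype.val : s → F))] A := IsAlgClosed.lift
  refine ⟨φ.toRingHom, fun e => ?_⟩
  show φ (algebraMap E F e) = algebraMap E A e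
  have h2 : algebraMap E F e = algebraMap (Algebra.adjoin E (Set.range (Subtype.val : s → F))) F
      (algebraMap E _ e) := rfl
  rw [h2, φ.commutes]
  exact g.commutes e

end EXTaux

theorem EXT_thm : EXTStmt.{u} := by
  classical
  intro K A F _ _ _ _ _ _ _ _ _ x y hxy
  let S := Algebra.adjoin K ({x} : Set F)
  have hex : ∀ s : S, ∃ P : K[X], aeval x P = (s : F) := by
    intro s
    have h : (s : F) ∈ Algebra.adjoin K ({x} : Set F) := s.2
    rw [Algebra.adjoin_singleton_eq_range_aeval] at h
    exact h
  choose c hc using hex
  have key : ∀ P Q : K[X], aeval x P = aeval x Q → aeval y P = aeval y Q := by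
    intro P Q h
    have h1 : aeval x (P - Q) = 0 := by rw [map_sub, h, sub_self]
    rw [hxy, map_sub, sub_eq_zero] at h1
    exact h1
  let g : S →ₐ[K] A :=
    { toFun := fun s => aeval y (c s)
      map_one' := by
        have := key (c 1) 1 (by rw [hc, map_one]; rfl)
        rw [this, map_one]
      map_mul' := fun s t => by
        have := key (c (s * t)) (c s * c t) (by rw [hc, map_mul, hc, hc]; rfl)
        show aeval y (c (s * t)) = aeval y (c s) * aeval y (c t)
        rw [this, map_mul]
      map_zero' := by
        have := key (c 0) 0 (by rw [hc, map_zero]; rfl)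
        rw [this, map_zero]
      map_add' := fun s t => by
        have := key (c (s + t)) (c s + c t) (by rw [hc, map_add, hc, hc]; rfl)
        show aeval y (c (s + t)) = aeval y (c s) + aeval y (c t)
        rw [this, map_add]
      commutes' := fun r => by
        have := key (c (algebraMap K S r)) (C r) (by rw [hc, aeval_C]; rfl)
        show aeval y (c (algebraMap K S r)) = algebraMap K A r
        rw [this, aeval_C] }
  have hg : Function.Injective g := by
    intro s t h
    have h1 : aeval y (c s) = aeval y (c t) := h
    have h2 : aeval y (c s - c t) = 0 := by rw [map_sub, h1, sub_self]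
    rw [← hxy, map_sub, sub_eq_zero, hc, hc] at h2
    exact Subtype.ext h2
  letI : Algebra S A := g.toRingHom.toAlgebra
  haveI : FaithfulSMul S A := (faithfulSMul_iff_algebraMap_injective S A).2 hg
  haveI : FaithfulSMul S F := (faithfulSMul_iff_algebraMap_injective S F).2 Subtype.val_injective
  haveI : Countable S := inferInstance
  obtain ⟨φ, hφ⟩ := EXTaux.ext_gen (E := S) (F := F) (A := A)
  refine ⟨{ φ with
    commutes' := fun r => ?_ }, ?_⟩
  · show φ (algebraMap K F r) = algebraMap K A r
    have h1 : algebraMap K F r = algebraMap S F (algebraMap K S r) := rfl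
    rw [h1, hφ]
    exact g.commutes r
  · show φ x = y
    have hx : x ∈ S := Algebra.self_mem_adjoin_singleton K x
    have h1 : x = algebraMap S F ⟨x, hx⟩ := rfl
    have h2 : φ x = algebraMap S A ⟨x, hx⟩ := by
      conv_lhs => rw [h1]
      exact hφ _
    rw [h2]
    show aeval y (c ⟨x, hx⟩) = y
    have := key (c ⟨x, hx⟩) X (by rw [hc, aeval_X])
    rw [this, aeval_X]

end Pool.BTL
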